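import Pool.Agent.Run7.h968.Fam

set_option autoImplicit false

/-!
# General collisions of `36 q ^ 2 + 4` fat points, all multiplicities and all degrees

Let `q` be odd and `r = 36 q ^ 2 + 4`, so `r = 40, 328, 904, ...`; no such `r` is a square. For every
`m`, every field `k` of characteristic zero and all `(c, a)` outside a hypersurface, the space of forms
of degree `d` containing the subscheme of the plane with ideal
`(y - (a₀ + a₁ x + ... + a_(r-1) x ^ (r-1)), (x - c) ^ r) ^ m` has the expected dimension, for every `d`.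
-/

namespace Pool.Agent.Results.MP_e6aa12_ag.NonsquareFamily

open Polynomial

universe u

/-- The forms of degree `d` in three variables whose dehomogenisation lies in the ideal
`(y - ∑ a_j x ^ j, (x - c) ^ r) ^ m` of `k[x][y]`. -/
noncomputable def forms {k : Type u} [Field k] {r : ℕ} (m : ℕ) (c : k) (a : Fin r → k) (d : ℕ) :
    Submodule k (MvPolynomial (Fin 3) k) :=
  MvPolynomial.homogeneousSubmodule (Fin 3) k d ⊓
    (Submodule.restrictScalars k
      ((Ideal.span {X - C (∑ j : Fin r, C (a j) * X ^ (j : ℕ)), C ((X - C c) ^ r)} :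
        Ideal k[X][X]) ^ m)).comap
      (MvPolynomial.aeval ![C X, X, 1] :
        MvPolynomial (Fin 3) k →ₐ[k] k[X][X]).toLinearMap

theorem result (q m : ℕ) (hq : Odd q) (k : Type u) [Field k] [CharZero k] :
    ∃ F : MvPolynomial (Fin (36 * q ^ 2 + 4 + 1)) k, F ≠ 0 ∧
      ∀ (c : k) (a : Fin (36 * q ^ 2 + 4) → k),
        MvPolynomial.eval (Fin.cons c a : Fin (36 * q ^ 2 + 4 + 1) → k) F ≠ 0 →
        ∀ d : ℕ, Module.finrank k (forms m c a d) =
          Nat.choose (d + 2) 2 - (36 * q ^ 2 + 4) * Nat.choose (m + 1) 2 := by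
  obtain ⟨F, hF, hF'⟩ := Pool.Agent.Run7.h968.fam hq m k
  exact ⟨F, hF, fun c a hc d => hF' c a hc d⟩

end Pool.Agent.Results.MP_e6aa12_ag.NonsquareFamily
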