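import Pool.Agent.Run7.h388.RM.ColD
import Pool.Agent.Run7.h388.RM.Cov

set_option autoImplicit false

/-!
# General collisions of `r ≥ 10` fat points in random degrees: ALL multiplicities at once

A random degree has a finitely supported distribution `μ`. `Always Q` says that all random numbers for which the exponential
sums `E e(θ d)` at certain finitely many irrational `θ` and the probability of small values are small have the property `Q`.

The degree `d` is good for `r` if for EVERY multiplicity `m` the space of the forms of degree `d` on the scheme with ideal
`(y - (a₀ + a₁ x + ... + a_(r-1) x ^ (r-1)), (x - c) ^ r) ^ m` has the expected dimension for all `(c, a)` outside a hypersurface.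

(1) With a probability of at least `0.259` a random degree is good for `r = 10, …, 15` at once over EVERY field, of any
characteristic. For one `r ≤ 15` it is not good with a probability of at most `badAll r + δ`.

(2) With a probability of at least `0.816` it is good for `r = 10`, `11`, `13` and all squares `r ≥ 16` at once over every field of
characteristic zero.

(3) For one `r ≥ 10` it is not good for the fields of characteristic zero with a probability of at most `bad r + δ`, where
`bad r < 0.24` for all `r`.

(4) (`CoversMore`) These bounds hold in particular for the random members of all intervals and all progressions of length `≥ L₀`,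
for random numbers with `k ≥ k₀` independent digits, for positions of random walks, binomial laws, random members of very thin
families of residues, and all large terms of all sequences of random numbers whose exponential sums at the irrational frequencies
tend to zero and which do not concentrate on a single number; an arbitrary independent random number can be added.

Proof. The windows are those of the starting tree (`Pool.Agent.TH183.QS.coll_every`, `Pool.Agent.TH518.CW.coll_all`, `eleven_coll`,
`thirteen_coll`), now read as windows for the degree around the multiples of `√r`; the theorem on arcs for random integers is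
`Pool.Agent.N794.DG`. The other parts are new (`Pool.Agent.Run7.h388.RM`).
-/

namespace Pool.Agent.Results.MP_e6aa12_ag.RandomDegrees

open Pool.Agent.N794.DG (Always meas)
open Pool.Agent.Run7.h388.RM (CoversMore)
open Pool.Agent.Run7.h388.RM.ColD (forms ExpectedOver Good GoodAll bad badAll)

universe u

/-- **Main result.** -/
theorem result :
    -- every field, ten to fifteen points
    (Always fun μ => 0.259 ≤ meas μ fun d => ∀ r ∈ ({10, 11, 12, 13, 14, 15} : Finset ℕ), GoodAll.{u} r d) ∧
    (∀ r : ℕ, 10 ≤ r → r ≤ 15 → ∀ δ : ℝ, 0 < δ → Always fun μ => meas μ (fun d => ¬ GoodAll.{u} r d) ≤ badAll r + δ) ∧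
    (badAll 10 < 0.05132 ∧ badAll 11 < 0.04774 ∧ badAll 12 < 0.13398 ∧ badAll 13 < 0.08398 ∧ badAll 14 < 0.19822 ∧
      badAll 15 < 0.22541) ∧
    -- characteristic zero
    (Always fun μ => 0.816 ≤ meas μ fun d =>
      ∀ r : ℕ, 10 ≤ r → (r = 10 ∨ r = 11 ∨ r = 13 ∨ IsSquare r) → Good.{u} r d) ∧
    (∀ r : ℕ, 10 ≤ r → ∀ δ : ℝ, 0 < δ → Always fun μ => meas μ (fun d => ¬ Good.{u} r d) ≤ bad r + δ) ∧
    (∀ r : ℕ, 10 ≤ r → bad r < 0.24) ∧
    CoversMore :=
  ⟨Pool.Agent.Run7.h388.RM.ColD.joint_all, fun _ hr hr' _ hδ => Pool.Agent.Run7.h388.RM.ColD.one_all hr hr' hδ,
    Pool.Agent.Run7.h388.RM.ColD.badAll_vals, Pool.Agent.Run7.h388.RM.ColD.joint_zero,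
    fun _ hr _ hδ => Pool.Agent.Run7.h388.RM.ColD.one_zero hr hδ, fun _ hr => Pool.Agent.Run7.h388.RM.ColD.bad_lt hr,
    Pool.Agent.Run7.h388.RM.coversMore⟩

end Pool.Agent.Results.MP_e6aa12_ag.RandomDegrees
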