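import Pool.Agent.Results.MP_e6aa12_ag.RandomMultiplicities
import Pool.Agent.Run7.h388.RM.Joint
import Pool.Agent.Run7.h388.RM.Sure

set_option autoImplicit false

/-!
# General collisions of fat points along random walks, almost surely

`Surely R`: the property `R` of sequences of natural numbers holds

* for almost all paths `k ↦ c₀ + κ (X 0 + ... + X (k - 1))` of all random walks with independent steps `X i` each of which takes
  two fixed values `a ≠ b` with probabilities at least `η > 0` (the steps need not be identically distributed, bounded or of finite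
  mean), for all `κ ≥ 1`, `c₀`;
* for almost all sequences of independent random natural numbers `Y k` such that `P (Y k = m) → 0` for every `m` and
  `E e(θ Y k) → 0` for every irrational `θ`.

`hits x Q K` is the number of the `k < K` such that `x k` has the property `Q`.

**Theorem.** Almost surely the following is true for the sequence `x` of multiplicities.

(1) For every `r ≥ 10`, `δ > 0` and all large `K`, for all but at most `(bad r + δ) K` of the first `K` multiplicities `m` the space of
the forms of degree `d` on the scheme with ideal `(y - (a₀ + a₁ x + ... + a_(r-1) x ^ (r-1)), (x - c) ^ r) ^ m` has the expected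
dimension in EVERY degree `d`, over every field of characteristic zero and for all `(c, a)` outside a hypersurface.

(2) For `r = 10, …, 15` the same holds over EVERY field, of any characteristic, with `badAll r`.

(3) For all large `K`, at least `0.68 K` of the first `K` multiplicities have the property in (1) for `r = 10`, `11`, `13` and all
squares `r ≥ 16` at once.

(4) `bad r < 1` and `badAll r < 1`.

Proof. The windows are those of the starting file `MP_e6aa12_ag.RandomMultiplicities`, the deterministic criterion `Always` is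
`Pool.Agent.N794.DG`. New (`Pool.Agent.Run7.h388.RM`): the second moments of the exponential sums along a random walk are `O(K)` at
every irrational frequency, so the sums are `o(K)` almost surely (squares and interpolation), the path tends to infinity, and the
empirical distributions of almost every path have eventually all properties in the sense of `Always`.
-/

namespace Pool.Agent.Results.MP_e6aa12_ag.RandomWalkPaths

open Polynomial Filter
open Pool.Agent.Run7.h388.RM (Surely hits)

universe u

/-- The forms of degree `d` in three variables whose dehomogenisation lies in the ideal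
`(y - ∑ a_j x ^ j, (x - c) ^ r) ^ m` of `k[x][y]`. -/
noncomputable def forms {k : Type u} [Field k] {r : ℕ} (m : ℕ) (c : k) (a : Fin r → k) (d : ℕ) :
    Submodule k (MvPolynomial (Fin 3) k) :=
  MvPolynomial.homogeneousSubmodule (Fin 3) k d ⊓
    (Submodule.restrictScalars k
      ((Ideal.span {X - C (∑ j : Fin r, C (a j) * X ^ (j : ℕ)), C ((X - C c) ^ r)} :
        Ideal k[X][X]) ^ m)).comap
      (MvPolynomial.aeval ![C X, X, 1] :
        MvPolynomial (Fin 3) k →ₐ[k] k[X][X]).toLinearMap

/-- Over the field `k`, for all `(c, a)` outside a hypersurface, the space of forms has the expected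
dimension in every degree. -/
def ExpectedOver (k : Type u) [Field k] (r m : ℕ) : Prop :=
  ∃ F : MvPolynomial (Fin (r + 1)) k, F ≠ 0 ∧
    ∀ (c : k) (a : Fin r → k), MvPolynomial.eval (Fin.cons c a : Fin (r + 1) → k) F ≠ 0 →
      ∀ d : ℕ, Module.finrank k (forms m c a d) = Nat.choose (d + 2) 2 - r * Nat.choose (m + 1) 2

/-- every field of characteristic zero -/
def AllDegrees (r m : ℕ) : Prop :=
  ∀ (k : Type u) [Field k] [CharZero k], ExpectedOver k r m

/-- every field, of any characteristic -/
def AllDegreesAllFields (r m : ℕ) : Prop :=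
  ∀ (k : Type u) [Field k], ExpectedOver k r m

open Classical in
/-- The bound for the frequency of the bad multiplicities in characteristic zero. -/
noncomputable def bad (r : ℕ) : ℝ :=
  if IsSquare r then 0
  else if r = 11 ∨ r = 13 then (√(r : ℝ) - 3) / 6
  else (min (√(r : ℝ) - 3) (2 / 3 + 9 / (4 * √(r : ℝ))) +
    min (√(r : ℝ) - 3) (2 / 3 + 1 / (4 * √(r : ℝ)))) / 2

/-- The bound for the frequency of the bad multiplicities in all characteristics. -/
noncomputable def badAll (r : ℕ) : ℝ :=
  if r = 11 ∨ r = 13 then (√(r : ℝ) - 3) / 6 else √(r : ℝ) - 3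

theorem bad_ten : bad 10 < 0.163 := by
  have h1 : √((10 : ℕ) : ℝ) < 3.163 := by
    rw [Real.sqrt_lt' (by norm_num)]
    norm_num
  have h0 : ¬ IsSquare 10 := by
    rintro ⟨k, hk⟩
    have : k ≤ 3 := by nlinarith
    interval_cases k <;> omega
  unfold bad
  rw [if_neg h0, if_neg (by norm_num)]
  have h2 := min_le_left (√((10 : ℕ) : ℝ) - 3) (2 / 3 + 9 / (4 * √((10 : ℕ) : ℝ)))
  have h3 := min_le_left (√((10 : ℕ) : ℝ) - 3) (2 / 3 + 1 / (4 * √((10 : ℕ) : ℝ)))
  linarith

theorem bad_odd {r : ℕ} (hr : r = 11 ∨ r = 13) {s : ℝ} (hs : √(r : ℝ) < s) : bad r ≤ (s - 3) / 6 := by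
  have h0 : ¬ IsSquare r := by
    rintro ⟨k, hk⟩
    have : k ≤ 3 := by
      rcases hr with rfl | rfl <;> nlinarith
    interval_cases k <;> omega
  unfold bad
  rw [if_neg h0, if_pos hr]
  linarith

theorem joint : Pool.Agent.N794.DG.Always fun μ => 0.68 ≤ Pool.Agent.N794.DG.meas μ fun m =>
    ∀ r : ℕ, 10 ≤ r → (r = 10 ∨ r = 11 ∨ r = 13 ∨ IsSquare r) → AllDegrees.{u} r m := by
  have hres := (Pool.Agent.Results.MP_e6aa12_ag.RandomMultiplicities.result.{u}).1
  have h10 := hres 10 (by norm_num) 0.0005 (by norm_num)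
  have h11 := hres 11 (by norm_num) 0.0005 (by norm_num)
  have h13 := hres 13 (by norm_num) 0.0005 (by norm_num)
  refine (Pool.Agent.Run7.h388.RM.always_and (Pool.Agent.Run7.h388.RM.always_and h10 h11)
    (Pool.Agent.Run7.h388.RM.always_and h13 Pool.Agent.Run7.h388.RM.always_prob)).mono fun μ _ hμ => ?_
  obtain ⟨⟨g10, g11⟩, g13, hnn, h1⟩ := hμ
  rw [Pool.Agent.Run7.h388.RM.meas_compl h1]
  have h2 : Pool.Agent.N794.DG.meas μ (fun m =>
      ¬ ∀ r : ℕ, 10 ≤ r → (r = 10 ∨ r = 11 ∨ r = 13 ∨ IsSquare r) → AllDegrees.{u} r m) ≤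
      Pool.Agent.N794.DG.meas μ (fun m => (¬ AllDegrees.{u} 10 m ∨ ¬ AllDegrees.{u} 11 m) ∨ ¬ AllDegrees.{u} 13 m) := by
    apply Pool.Agent.N794.DG.meas_mono hnn
    intro m hm
    by_contra hcon
    push Not at hcon
    obtain ⟨⟨a, b⟩, c⟩ := hcon
    apply hm
    intro r hr hmost
    rcases hmost with rfl | rfl | rfl | h
    · exact a
    · exact b
    · exact c
    · exact Pool.Agent.Results.MP_e6aa12_ag.RandomMultiplicities.squares hr h
  have h3 := Pool.Agent.Run7.h388.RM.meas_or hnn (fun m => ¬ AllDegrees.{u} 10 m ∨ ¬ AllDegrees.{u} 11 m)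
    (fun m => ¬ AllDegrees.{u} 13 m)
  have h4 := Pool.Agent.Run7.h388.RM.meas_or hnn (fun m => ¬ AllDegrees.{u} 10 m) (fun m => ¬ AllDegrees.{u} 11 m)
  have e10 := bad_ten
  have e11 := bad_odd (r := 11) (Or.inl rfl) (s := 3.3168) (by rw [Real.sqrt_lt' (by norm_num)]; norm_num)
  have e13 := bad_odd (r := 13) (Or.inr rfl) (s := 3.6058) (by rw [Real.sqrt_lt' (by norm_num)]; norm_num)
  have f10 : Pool.Agent.N794.DG.meas μ (fun m => ¬ AllDegrees.{u} 10 m) ≤ bad 10 + 0.0005 := g10
  have f11 : Pool.Agent.N794.DG.meas μ (fun m => ¬ AllDegrees.{u} 11 m) ≤ bad 11 + 0.0005 := g11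
  have f13 : Pool.Agent.N794.DG.meas μ (fun m => ¬ AllDegrees.{u} 13 m) ≤ bad 13 + 0.0005 := g13
  linarith

/-- **Main result.** -/
theorem result :
    (Surely fun x => ∀ r : ℕ, 10 ≤ r → ∀ δ : ℝ, 0 < δ → ∀ᶠ K : ℕ in atTop,
      hits x (fun m => ¬ AllDegrees.{u} r m) K ≤ (bad r + δ) * K) ∧
    (Surely fun x => ∀ r : ℕ, 10 ≤ r → r ≤ 15 → ∀ δ : ℝ, 0 < δ → ∀ᶠ K : ℕ in atTop,
      hits x (fun m => ¬ AllDegreesAllFields.{u} r m) K ≤ (badAll r + δ) * K) ∧
    (Surely fun x => ∀ᶠ K : ℕ in atTop, 0.68 * K ≤ hits x (fun m =>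
      ∀ r : ℕ, 10 ≤ r → (r = 10 ∨ r = 11 ∨ r = 13 ∨ IsSquare r) → AllDegrees.{u} r m) K) ∧
    (∀ r : ℕ, 10 ≤ r → bad r < 1) ∧ (∀ r : ℕ, r ≤ 15 → badAll r < 1) := by
  obtain ⟨h1, h2, h3, h4, -⟩ := Pool.Agent.Results.MP_e6aa12_ag.RandomMultiplicities.result.{u}
  refine ⟨?_, ?_, Pool.Agent.Run7.h388.RM.surely_ge joint, h3, h4⟩
  · exact Pool.Agent.Run7.h388.RM.surely_ten fun r hr => Pool.Agent.Run7.h388.RM.surely_le (h1 r hr)
  · refine Pool.Agent.Run7.h388.RM.surely_ten fun r hr => ?_
    by_cases h15 : r ≤ 15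
    · exact (Pool.Agent.Run7.h388.RM.surely_le (h2 r hr h15)).mono fun x hx _ => hx
    · exact (Pool.Agent.Run7.h388.RM.surely_ge joint.{u}).mono fun x _ h => absurd h h15

end Pool.Agent.Results.MP_e6aa12_ag.RandomWalkPaths
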