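import Pool.Agent.TH183.QS.Fin
import Pool.Agent.TH518.CW.TwoC
import Pool.Agent.Run7.h823.NG.S3
import Pool.Agent.Run7.h823.NG.S4
import Pool.Agent.Run7.h823.NG.S6

set_option autoImplicit false

/-!
# General collisions of `r ≥ 10` fat points: all degrees, multiplicities in sparse families of residues

Let `y_i`, `i ∈ s`, be any finite family of residues modulo an integer `q`, represented by the least residues
`0 ≤ y_i < q`, whose Fourier coefficients at the nonzero frequencies are at most `1 / (K log q)` times their number (`Flat`),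
`K` a large constant and `q ≥ K`, and let `c₀` be any natural number. The family can be very sparse, for instance have only
`q ^ ε` members.

(1) For every `r ≥ 10`, `δ > 0`, and `K` large enough in terms of `r` and `δ`: for all multiplicities `m = c₀ + y_i ≥ 1`
    outside of a proportion of at most `bad r + δ` of the family, `bad r < 1`, the space of the
    forms of degree `d` on the scheme with ideal `(y - (a₀ + a₁ x + ... + a_(r-1) x ^ (r-1)), (x - c) ^ r) ^ m` has the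
    expected dimension in EVERY degree `d`, over every field of characteristic zero and for all `(c, a)` outside a
    hypersurface; `bad r = 0` if `r` is a square.

(2) For `r = 10, …, 15` the same holds over EVERY field, of any characteristic, outside of a proportion of at most
    `badAll r + δ`, `badAll r < 1`.

(3) Examples of such families (for every `K`, `ε > 0`, `k` and all large primes `m`): the first `N ≥ m ^ ε` values
    `c_1 g_1 ^ n + ... + c_k g_k ^ n` modulo `m`, `n < N`, `c ≠ 0`, where the orders of the `g_i` and of the quotients `g_i / g_j`,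
    `i ≠ j`, are at least `m ^ ε`.

(4) For every integer `b ≥ 2` and all but `C X ^ ε` of the primes `m ≤ X`: the residues `x b ^ n` modulo `m`, `n < N`, for
    every `N ≥ m ^ ε` and every `x ≠ 0`. For instance the multiplicities `2 ^ n mod m`, `n < m ^ ε`.

From Mathlib: `ZMod.stdAddChar`: the additive character `j ↦ exp (2 π i j / q)` of the integers modulo `q`; `ZMod.val`: the
least residue.

Proof. The open degrees form a short window (TH183, TH518 of the starting library), so that a bad multiplicity `m` puts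
`m √r` in an arc modulo one (helper141, `Pool.Agent.N141.SG`). The exponential sums of `θ y_i`, `θ` irrational, are
estimated by the Fourier coefficients modulo `q` (`Pool.Agent.Run7.h823.NG`); those of short recurrences by the method of
Bourgain, Glibichuk and Konyagin (`Pool.Agent.Run7.h823.BK`).
-/

namespace Pool.Agent.Results.MP_e6aa12_ag.ResidueMultiplicities

open Polynomial Filter
open Pool.Agent.Run7.h823.NG (three_lt lo_le up_le win_nonneg win_flat none_flat alg_root alg_third)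

universe u

/-- The forms of degree `d` in three variables whose dehomogenisation lies in the ideal
`(y - ∑ a_j x ^ j, (x - c) ^ r) ^ m` of `k[x][y]`. -/
noncomputable def forms {k : Type u} [Field k] {r : ℕ} (m : ℕ) (c : k) (a : Fin r → k) (d : ℕ) :
    Submodule k (MvPolynomial (Fin 3) k) :=
  MvPolynomial.homogeneousSubmodule (Fin 3) k d ⊓
    (Submodule.restrictScalars k
      ((Ideal.span {X - C (∑ j : Fin r, C (a j) * X ^ (j : ℕ)), C ((X - C c) ^ r)} :
        Ideal k[X][X]) ^ m)).comap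
      (MvPolynomial.aeval ![C X, X, 1] :
        MvPolynomial (Fin 3) k →ₐ[k] k[X][X]).toLinearMap

/-- Over the field `k`, for all `(c, a)` outside a hypersurface, the space of forms has the expected
dimension in every degree. -/
def ExpectedOver (k : Type u) [Field k] (r m : ℕ) : Prop :=
  ∃ F : MvPolynomial (Fin (r + 1)) k, F ≠ 0 ∧
    ∀ (c : k) (a : Fin r → k), MvPolynomial.eval (Fin.cons c a : Fin (r + 1) → k) F ≠ 0 →
      ∀ d : ℕ, Module.finrank k (forms m c a d) = Nat.choose (d + 2) 2 - r * Nat.choose (m + 1) 2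

/-- every field of characteristic zero -/
def AllDegrees (r m : ℕ) : Prop :=
  ∀ (k : Type u) [Field k] [CharZero k], ExpectedOver k r m

/-- every field, of any characteristic -/
def AllDegreesAllFields (r m : ℕ) : Prop :=
  ∀ (k : Type u) [Field k], ExpectedOver k r m

open Classical in
/-- The bound for the proportion of the bad multiplicities in characteristic zero. -/
noncomputable def bad (r : ℕ) : ℝ :=
  if IsSquare r then 0
  else if r = 11 ∨ r = 13 then (√(r : ℝ) - 3) / 6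
  else (min (√(r : ℝ) - 3) (2 / 3 + 9 / (4 * √(r : ℝ))) +
    min (√(r : ℝ) - 3) (2 / 3 + 1 / (4 * √(r : ℝ)))) / 2

/-- The bound for the proportion of the bad multiplicities in all characteristics. -/
noncomputable def badAll (r : ℕ) : ℝ :=
  if r = 11 ∨ r = 13 then (√(r : ℝ) - 3) / 6 else √(r : ℝ) - 3

/-- The Fourier coefficients of the residues `y i`, `i ∈ s`, modulo `q` at the nonzero frequencies are at most `η` times the
number of the residues: `|∑ i ∈ s, e(h y_i / q)| ≤ η |s|` for all `h ≠ 0` modulo `q`. -/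
def Flat {τ : Type} (q : ℕ) [NeZero q] (η : ℝ) (s : Finset τ) (y : τ → ZMod q) : Prop :=
  ∀ h : ZMod q, h ≠ 0 → ‖∑ i ∈ s, (ZMod.stdAddChar (h * y i) : ℂ)‖ ≤ η * s.card

/-- The natural number `c₀ + y_i`, with the least residue `0 ≤ y_i < q`. -/
def mult {τ : Type} {q : ℕ} (y : τ → ZMod q) (c₀ : ℕ) (i : τ) : ℕ := c₀ + (y i).val

theorem not_square {r : ℕ} (h1 : 10 ≤ r) (h2 : r ≤ 15) : ¬ IsSquare r := by
  rintro ⟨k, hk⟩
  have : k ≤ 3 := by nlinarith
  interval_cases k <;> omega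

/-- eleven and thirteen points: a bad multiplicity gives a multiple of three in a short window -/
theorem window3 {r m : ℕ} (hr : r = 11 ∨ r = 13) (h : ¬ AllDegreesAllFields.{u} r m) :
    ∃ z : ℤ, -((√(r : ℝ) - 3) / 6) ≤ √(r : ℝ) / 3 * m + 0 - z ∧ √(r : ℝ) / 3 * m + 0 - z ≤ 0 := by
  by_contra hcon
  push Not at hcon
  apply h
  intro k _
  have key : ∃ F : MvPolynomial (Fin (r + 1)) k, F ≠ 0 ∧
      ∀ (c : k) (a : Fin r → k), MvPolynomial.eval (Fin.cons c a : Fin (r + 1) → k) F ≠ 0 →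
        ∀ d : ℕ, (¬ 3 ∣ d ∨ (d : ℝ) ≤ √(r : ℝ) * m ∨ √(r : ℝ) * (2 * m + 1) ≤ 2 * d + 3) →
          Module.finrank k (forms m c a d) = Nat.choose (d + 2) 2 - r * Nat.choose (m + 1) 2 := by
    rcases hr with rfl | rfl
    · obtain ⟨F, hF, hF'⟩ := Pool.Agent.TH518.CW.eleven_coll (m := m) k
      exact ⟨F, hF, fun c a hc d hd => hF' c a hc d hd⟩
    · obtain ⟨F, hF, hF'⟩ := Pool.Agent.TH518.CW.thirteen_coll (m := m) k
      exact ⟨F, hF, fun c a hc d hd => hF' c a hc d hd⟩
  obtain ⟨F, hF, hF'⟩ := key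
  refine ⟨F, hF, fun c a hc d => hF' c a hc d ?_⟩
  by_cases h3 : 3 ∣ d
  · obtain ⟨e, rfl⟩ := h3
    have h1 := hcon (e : ℤ)
    push_cast at h1 ⊢
    rcases le_or_gt (3 * (e : ℝ)) (√(r : ℝ) * m) with h2 | h2
    · exact Or.inr (Or.inl h2)
    · right; right
      by_contra h4
      rw [not_le] at h4
      have h5 := h1 (by linarith)
      linarith
  · exact Or.inl h3

/-- all characteristics -/
theorem window_all {r m : ℕ} (hr : 10 ≤ r) (h : ¬ AllDegreesAllFields.{u} r m) :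
    ∃ z : ℤ, -(√(r : ℝ) - 3) ≤ √(r : ℝ) * m + 0 - z ∧ √(r : ℝ) * m + 0 - z ≤ 0 := by
  by_contra hcon
  push Not at hcon
  apply h
  intro k _
  obtain ⟨F, hF, hF'⟩ := Pool.Agent.TH518.CW.coll_all (m := m) hr k
  refine ⟨F, hF, fun c a hc d => hF' c a hc d ?_⟩
  have h1 := hcon (d : ℤ)
  push_cast at h1
  rcases le_or_gt (d : ℝ) (√(r : ℝ) * m) with h2 | h2
  · exact Or.inl h2
  · right
    by_contra h4
    rw [not_le] at h4
    have h5 := h1 (by linarith)
    linarith

/-- characteristic zero -/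
theorem window {r m : ℕ} (hr : 10 ≤ r) (h : ¬ AllDegrees.{u} r m) : ∃ z : ℤ,
    -(min (√(r : ℝ) - 3) (2 / 3 + 1 / (4 * √(r : ℝ))) / 2) ≤
      √(r : ℝ) * m + (√(r : ℝ) - 3) / 2 - z ∧
    √(r : ℝ) * m + (√(r : ℝ) - 3) / 2 - z ≤
      min (√(r : ℝ) - 3) (2 / 3 + 9 / (4 * √(r : ℝ))) / 2 := by
  by_contra hcon
  push Not at hcon
  apply h
  intro k _ _
  obtain ⟨F, hF, hF'⟩ := Pool.Agent.TH183.QS.coll_every hr m k
  refine ⟨F, hF, fun c a hc d => hF' c a hc d ?_⟩
  by_contra hd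
  push Not at hd
  obtain ⟨d1, d2, d3, d4⟩ := hd
  have h1 := hcon (d : ℤ)
  push_cast at h1
  have h2 : -(min (√(r : ℝ) - 3) (2 / 3 + 1 / (4 * √(r : ℝ))) / 2) ≤
      √(r : ℝ) * m + (√(r : ℝ) - 3) / 2 - d := by
    rcases min_choice (√(r : ℝ) - 3) (2 / 3 + 1 / (4 * √(r : ℝ))) with h | h <;> rw [h] <;>
      linarith
  have h3 := h1 h2
  rcases min_choice (√(r : ℝ) - 3) (2 / 3 + 9 / (4 * √(r : ℝ))) with h | h <;> rw [h] at h3 <;>
    linarith

theorem squares {r m : ℕ} (hr : 10 ≤ r) (hsq : IsSquare r) : AllDegrees.{u} r m := by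
  intro k _ _
  obtain ⟨F, hF, hF'⟩ := Pool.Agent.TH183.QS.coll_start (m := m) hr (Or.inr hsq) k
  exact ⟨F, hF, fun c a hc d => hF' c a hc d⟩

theorem of_all {r m : ℕ} (h : AllDegreesAllFields.{u} r m) : AllDegrees.{u} r m :=
  fun k _ _ => h k

theorem bad_lt {r : ℕ} (hr : 10 ≤ r) : bad r < 1 := by
  have hs3 := three_lt hr
  unfold bad
  split_ifs with h1 h2
  · norm_num
  · have : √(r : ℝ) < 4 := by
      rw [Real.sqrt_lt' (by norm_num)]
      rcases h2 with rfl | rfl <;> norm_num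
    linarith
  · have h3 := lo_le hs3.le
    have h4 := up_le hs3.le
    linarith

theorem badAll_lt {r : ℕ} (hr' : r ≤ 15) : badAll r < 1 := by
  have : √(r : ℝ) < 4 := by
    rw [Real.sqrt_lt' (by norm_num)]
    have : (r : ℝ) ≤ 15 := by exact_mod_cast hr'
    linarith
  unfold badAll
  split_ifs <;> linarith

/-- all characteristics -/
theorem count_all {r : ℕ} (hr : 10 ≤ r) (hr' : r ≤ 15) {δ : ℝ} (hδ : 0 < δ) : ∃ K : ℕ, 0 < K ∧ ∀ (q : ℕ) [NeZero q],
    K ≤ q → ∀ (τ : Type) (s : Finset τ) (y : τ → ZMod q), Flat q (1 / (K * Real.log q)) s y → ∀ c : ℤ,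
      ({i : τ | i ∈ s ∧ ∃ m : ℕ, 1 ≤ m ∧ (m : ℤ) = c + ((y i).val : ℕ) ∧ ¬ AllDegreesAllFields.{u} r m}.ncard : ℝ) ≤
        (badAll r + δ) * (s.card : ℝ) := by
  have hs3 := three_lt hr
  have hirr : Irrational √(r : ℝ) := irrational_sqrt_natCast_iff.2 (not_square hr hr')
  by_cases h11 : r = 11 ∨ r = 13
  · have e : badAll r = 0 - (-((√(r : ℝ) - 3) / 6)) := by
      unfold badAll
      rw [if_pos h11]
      ring
    rw [e]
    have hirr3 : Irrational (√(r : ℝ) / 3) := by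
      have := hirr.div_natCast (m := 3) (by norm_num)
      simpa using this
    exact win_flat hirr3 (alg_third r) 0 (by linarith)
      (bad := fun m => ¬ AllDegreesAllFields.{u} r m) (fun m _ hbad => window3 h11 hbad) hδ
  · have e : badAll r = 0 - (-(√(r : ℝ) - 3)) := by
      unfold badAll
      rw [if_neg h11]
      ring
    rw [e]
    exact win_flat hirr (alg_root r) 0 (by linarith)
      (bad := fun m => ¬ AllDegreesAllFields.{u} r m) (fun m _ hbad => window_all hr hbad) hδ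

/-- characteristic zero -/
theorem count_zero {r : ℕ} (hr : 10 ≤ r) {δ : ℝ} (hδ : 0 < δ) : ∃ K : ℕ, 0 < K ∧ ∀ (q : ℕ) [NeZero q],
    K ≤ q → ∀ (τ : Type) (s : Finset τ) (y : τ → ZMod q), Flat q (1 / (K * Real.log q)) s y → ∀ c : ℤ,
      ({i : τ | i ∈ s ∧ ∃ m : ℕ, 1 ≤ m ∧ (m : ℤ) = c + ((y i).val : ℕ) ∧ ¬ AllDegrees.{u} r m}.ncard : ℝ) ≤
        (bad r + δ) * (s.card : ℝ) := by
  by_cases hsq : IsSquare r
  · have e : bad r = 0 := by
      unfold bad
      rw [if_pos hsq]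
    rw [e, zero_add]
    exact none_flat (bad := fun m => ¬ AllDegrees.{u} r m)
      (fun m _ hbad => hbad (squares hr hsq)) hδ
  · by_cases h11 : r = 11 ∨ r = 13
    · have e : bad r = badAll r := by
        unfold bad badAll
        rw [if_neg hsq, if_pos h11, if_pos h11]
      rw [e]
      obtain ⟨K, hK, h⟩ := count_all.{u} hr (by omega) hδ
      refine ⟨K, hK, fun q _ hq τ s y hf c => le_trans ?_ (h q hq τ s y hf c)⟩
      apply Pool.Agent.Run7.h823.WF.ncard_mono
      rintro i _ ⟨m, h1, h2, h3⟩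
      exact ⟨m, h1, h2, fun h4 => h3 (of_all h4)⟩
    · obtain ⟨g1, g2⟩ := win_nonneg hr
      have e : bad r = min (√(r : ℝ) - 3) (2 / 3 + 9 / (4 * √(r : ℝ))) / 2 -
          (-(min (√(r : ℝ) - 3) (2 / 3 + 1 / (4 * √(r : ℝ))) / 2)) := by
        unfold bad
        rw [if_neg hsq, if_neg h11]
        ring
      rw [e]
      have hs3 := three_lt hr
      have hirr : Irrational √(r : ℝ) := irrational_sqrt_natCast_iff.2 hsq
      exact win_flat hirr (alg_root r) ((√(r : ℝ) - 3) / 2)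
        (by linarith) (bad := fun m => ¬ AllDegrees.{u} r m) (fun m _ hbad => window hr hbad) hδ

/-- **Main result.** (1) Characteristic zero. (2) Every field, at most fifteen points. (3), (4) Examples. (5) The bounds for
the proportions. -/
theorem result :
    (∀ r : ℕ, 10 ≤ r → ∀ δ : ℝ, 0 < δ → ∃ K : ℕ, 0 < K ∧ ∀ (q : ℕ) [NeZero q], K ≤ q →
      ∀ (τ : Type) (s : Finset τ) (y : τ → ZMod q), Flat q (1 / (K * Real.log q)) s y → ∀ c₀ : ℕ,
      ({i : τ | i ∈ s ∧ 1 ≤ mult y c₀ i ∧ ¬ AllDegrees.{u} r (mult y c₀ i)}.ncard : ℝ) ≤ (bad r + δ) * s.card) ∧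
    (∀ r : ℕ, 10 ≤ r → r ≤ 15 → ∀ δ : ℝ, 0 < δ → ∃ K : ℕ, 0 < K ∧ ∀ (q : ℕ) [NeZero q], K ≤ q →
      ∀ (τ : Type) (s : Finset τ) (y : τ → ZMod q), Flat q (1 / (K * Real.log q)) s y → ∀ c₀ : ℕ,
      ({i : τ | i ∈ s ∧ 1 ≤ mult y c₀ i ∧ ¬ AllDegreesAllFields.{u} r (mult y c₀ i)}.ncard : ℝ) ≤
        (badAll r + δ) * s.card) ∧
    (∀ (k K : ℕ) (ε : ℝ), 0 < K → 0 < ε → ∃ m₀ : ℕ, ∀ (m : ℕ) [Fact m.Prime], m₀ ≤ m →
      ∀ (c : Fin k → ZMod m) (g : Fin k → (ZMod m)ˣ) (N : ℕ), c ≠ 0 → (∀ i, (m : ℝ) ^ ε ≤ orderOf (g i)) →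
      (∀ i j, i ≠ j → (m : ℝ) ^ ε ≤ orderOf (g i / g j)) → (m : ℝ) ^ ε ≤ N →
      Flat m (1 / (K * Real.log m)) (Finset.range N) (fun n => ∑ i, c i * (g i : ZMod m) ^ n)) ∧
    (∀ (b K : ℕ) (ε : ℝ), 2 ≤ b → 0 < K → 0 < ε → ∃ C : ℝ, ∀ X : ℕ, 1 ≤ X → ∀ Q : Finset ℕ,
      (∀ m ∈ Q, m ≤ X ∧ ∃ _ : Fact m.Prime, ¬ ∀ N : ℕ, (m : ℝ) ^ ε ≤ N → ∀ x : ZMod m, x ≠ 0 →
        Flat m (1 / (K * Real.log m)) (Finset.range N) (fun n => x * (b : ZMod m) ^ n)) →
      (Q.card : ℝ) ≤ C * (X : ℝ) ^ ε) ∧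
    (∀ r : ℕ, 10 ≤ r → bad r < 1) ∧ (∀ r : ℕ, r ≤ 15 → badAll r < 1) := by
  refine ⟨?_, ?_, ?_, ?_, ?_, ?_⟩
  · intro r hr δ hδ
    obtain ⟨K, hK, h⟩ := count_zero.{u} hr hδ
    refine ⟨K, hK, fun q _ hq τ s y hf c₀ => le_trans ?_ (h q hq τ s y hf (c₀ : ℤ))⟩
    apply Pool.Agent.Run7.h823.WF.ncard_mono
    rintro i _ ⟨h1, h2⟩
    refine ⟨mult y c₀ i, h1, ?_, h2⟩
    unfold mult
    push_cast
    rfl
  · intro r hr hr' δ hδ
    obtain ⟨K, hK, h⟩ := count_all.{u} hr hr' hδ
    refine ⟨K, hK, fun q _ hq τ s y hf c₀ => le_trans ?_ (h q hq τ s y hf (c₀ : ℤ))⟩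
    apply Pool.Agent.Run7.h823.WF.ncard_mono
    rintro i _ ⟨h1, h2⟩
    refine ⟨mult y c₀ i, h1, ?_, h2⟩
    unfold mult
    push_cast
    rfl
  · exact fun k K ε hK hε => Pool.Agent.Run7.h823.NG.ex_rec k K hK hε
  · exact fun b K ε hb hK hε => Pool.Agent.Run7.h823.NG.ex_pow b K hb hK hε
  · exact fun r hr => bad_lt hr
  · exact fun r hr' => badAll_lt hr'

end Pool.Agent.Results.MP_e6aa12_ag.ResidueMultiplicities
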